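import Pool.Agent.H691.Q2.Stm

/-! # P2c: a triangulation containing the lifted family has large areas -/

set_option autoImplicit false

namespace Pool.Agent.H399.Q2P2c

open Pool.Agent.W982.TA Pool.Agent.H691.Q2

theorem dt_swap (a b c : Pt) : dt b a c = -dt a b c := by simp only [dt]; ring
theorem dt_swap' (a b c : Pt) : dt a c b = -dt a b c := by simp only [dt]; ring

theorem tri_swap {S : Finset Pt} {T : Set (Sym2 Pt)} {a b c : Pt} (h : IsTri S T a b c) :
    IsTri S T b a c := by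
  obtain ⟨h1, h2, h3, h4, h5⟩ := h
  refine ⟨by rwa [Sym2.eq_swap], h3, h2, by rw [dt_swap]; exact neg_ne_zero.2 h4, ?_⟩
  intro r hr hr'
  rw [Set.insert_comm] at hr'
  rcases h5 r hr hr' with h | h | h
  · exact Or.inr (Or.inl h)
  · exact Or.inl h
  · exact Or.inr (Or.inr h)

theorem tri_swap' {S : Finset Pt} {T : Set (Sym2 Pt)} {a b c : Pt} (h : IsTri S T a b c) :
    IsTri S T a c b := by
  obtain ⟨h1, h2, h3, h4, h5⟩ := h
  refine ⟨h3, by rwa [Sym2.eq_swap], h1, by rw [dt_swap']; exact neg_ne_zero.2 h4, ?_⟩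
  intro r hr hr'
  rw [Set.pair_comm] at hr'
  rcases h5 r hr hr' with h | h | h
  · exact Or.inl h
  · exact Or.inr (Or.inr h)
  · exact Or.inr (Or.inl h)

theorem nocr (h3 : TaskG3) {S : Finset Pt} {T : Set (Sym2 Pt)} (hT : IsTriangulation S T)
    {a b c d : Pt} (h1 : s(a, b) ∈ T) (h2 : s(c, d) ∈ T) : ¬ PCross a b c d := by
  intro hc
  by_cases he : s(a, b) = s(c, d)
  · have h4 := hc.1
    rcases Sym2.eq_iff.1 he with ⟨rfl, rfl⟩ | ⟨rfl, rfl⟩
    · have : dt a b a = 0 := by simp only [dt]; ring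
      rw [this] at h4
      simp at h4
    · have : dt a b b = 0 := by simp only [dt]; ring
      rw [this] at h4
      simp at h4
  · exact h3 _ _ _ _ hc (hT.noncross _ _ _ _ h1 h2 he)

variable {X Y N : ℤ} {W : Finset Pt}

theorem sg_pos (P : Par X Y N W) {p q r : Pt} (hp : p ∈ box X Y) (hq : q ∈ box X Y)
    (hr : r ∈ box X Y) {α β γ : ℤ} (hα : 0 ≤ α ∧ α ≤ 1) (hβ : 0 ≤ β ∧ β ≤ 1)
    (hγ : 0 ≤ γ ∧ γ ≤ 1) (h : 0 < dt p q r) : 0 < dt (sp N p α) (sp N q β) (sp N r γ) := by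
  have h1 := dt_sp_pos P.N0 P.Y0 hp hq hr hα.1 hα.2 hβ.1 hβ.2 hγ.1 hγ.2 h
  have h2 := P.N0
  have h3 := P.Y0
  omega

theorem sg_neg (P : Par X Y N W) {p q r : Pt} (hp : p ∈ box X Y) (hq : q ∈ box X Y)
    (hr : r ∈ box X Y) {α β γ : ℤ} (hα : 0 ≤ α ∧ α ≤ 1) (hβ : 0 ≤ β ∧ β ≤ 1)
    (hγ : 0 ≤ γ ∧ γ ≤ 1) (h : dt p q r < 0) : dt (sp N p α) (sp N q β) (sp N r γ) < 0 := by
  have h1 := dt_sp_neg P.N0 P.Y0 hp hq hr hα.1 hα.2 hβ.1 hβ.2 hγ.1 hγ.2 h
  have h2 := P.N0
  have h3 := P.Y0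
  omega

theorem dl01 (W : Finset Pt) (f : Pt → Bool → Pt) (p q : Pt) :
    0 ≤ dl W f p q ∧ dl W f p q ≤ 1 := by
  unfold dl
  split_ifs <;> constructor <;> norm_num

theorem dl_out {W : Finset Pt} {f : Pt → Bool → Pt} {p q : Pt} (h : p ∉ W) :
    dl W f p q = 0 := by
  unfold dl
  rw [if_neg]
  exact fun h' => h h'.1

variable {f : Pt → Bool → Pt} {Ts : Set (Sym2 Pt)}

/-- the coarse vectors of the selection have both lifts -/
theorem dl_sel (L : Lft X Y W f Ts) {w : Pt} (hw : w ∈ W) (s : Bool) :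
    dl W f w (w + f w s) = 0 := by
  unfold dl
  rw [if_neg]
  rintro ⟨-, h⟩
  have hu := L.sel.up w hw
  have hd := L.sel.down w hw
  have e1 : (w + f w s - w).1 = (f w s).1 := by simp
  have e2 : (w + f w s - w).2 = (f w s).2 := by simp
  unfold ToRight at h
  rw [e1, e2] at h
  cases s
  · rcases h with ⟨h1, -⟩ | ⟨-, h2⟩ | ⟨h3, -⟩
    · omega
    · have : (f w false).1 * (f w false).2 - (f w false).2 * (f w false).1 = 0 := by ring
      omega
    · omega
  · rcases h with ⟨-, h1⟩ | ⟨h2, -⟩ | ⟨h3, -⟩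
    · have : (f w true).1 * (f w true).2 - (f w true).2 * (f w true).1 = 0 := by ring
      omega
    · omega
    · omega

theorem sel_zero (L : Lft X Y W f Ts) {T : Set (Sym2 Pt)} (hF : Fam N W f Ts ⊆ T) {w : Pt}
    (hw : w ∈ W) (s : Bool) : s(sp N w 0, sp N (w + f w s) 0) ∈ T := by
  apply hF
  left
  refine ⟨w, w + f w s, L.sub w hw s, ?_⟩
  rw [dl_sel L hw s, dl_out (L.out w hw s)]

theorem sel_one {T : Set (Sym2 Pt)} (hF : Fam N W f Ts ⊆ T) {w : Pt}
    (hw : w ∈ W) (s : Bool) : s(sp N w 1, sp N (w + f w s) 0) ∈ T := by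
  apply hF
  right
  right
  exact ⟨w, hw, s, rfl⟩

theorem pairE {T : Set (Sym2 Pt)} (hF : Fam N W f Ts ⊆ T) {w : Pt}
    (hw : w ∈ W) : s(sp N w 0, sp N w 1) ∈ T := by
  apply hF
  right
  left
  exact ⟨w, hw, rfl⟩

theorem lift {T : Set (Sym2 Pt)} (hF : Fam N W f Ts ⊆ T) {p q : Pt} (h : s(p, q) ∈ Ts) :
    s(sp N p (dl W f p q), sp N q (dl W f q p)) ∈ T := by
  apply hF
  left
  exact ⟨p, q, h, rfl⟩

/-- a multiple of a primitive vector -/
theorem mult {A h : Pt} (hA : Int.gcd A.1 A.2 = 1) (hc : A.1 * h.2 - A.2 * h.1 = 0) :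
    ∃ j : ℤ, h.1 = j * A.1 ∧ h.2 = j * A.2 := by
  have hcop : IsCoprime A.1 A.2 := Int.isCoprime_iff_gcd_eq_one.2 hA
  obtain ⟨u, v, huv⟩ := hcop
  refine ⟨u * h.1 + v * h.2, ?_, ?_⟩
  · linear_combination (-h.1) * huv - v * hc
  · linear_combination (-h.2) * huv + u * hc

/-- case 2: one of the sides is a pair edge -/
theorem case2 (h3 : TaskG3) (P : Par X Y N W) (L : Lft X Y W f Ts) {T : Set (Sym2 Pt)}
    (hT : IsTriangulation (SS X Y N W) T) (hF : Fam N W f Ts ⊆ T) {w r : Pt} {γ : ℤ}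
    (hw : w ∈ W) (hr : r ∈ box X Y) (hγ : 0 ≤ γ ∧ γ ≤ 1)
    (htri : IsTri (SS X Y N W) T (sp N w 0) (sp N w 1) (sp N r γ)) :
    2 * N ≤ |dt (sp N w 0) (sp N w 1) (sp N r γ)| := by
  have hN := P.N0
  have hY := P.Y0
  have hwb : w ∈ box X Y := ibox_box (P.W0 hw)
  have hdt : dt (sp N w 0) (sp N w 1) (sp N r γ) = N * (r.2 - w.2) := by
    rw [dt_sp]
    simp only [dt]
    ring
  have hne := htri.2.2.2.1
  rw [hdt] at hne ⊢
  have hne2 : r.2 - w.2 ≠ 0 := fun h => hne (by rw [h, mul_zero])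
  -- choose the direction
  obtain ⟨s, hs1, hs2⟩ : ∃ s : Bool, 2 ≤ |(f w s).2| ∧ 0 < (f w s).2 * (r.2 - w.2) := by
    rcases lt_or_gt_of_ne hne2 with h | h
    · have hd := L.sel.down w hw
      exact ⟨false, by rw [abs_of_neg (by omega)]; omega,
        mul_pos_of_neg_of_neg (by omega) h⟩
    · have hu := L.sel.up w hw
      exact ⟨true, by rw [abs_of_pos (by omega)]; omega, mul_pos (by omega) h⟩
  set A := f w s with hAdef
  have hAb : w + A ∈ box X Y := L.sel.mem w hw s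
  have e0 := sel_zero L hF hw s
  have e1 := sel_one hF hw s
  rw [← hAdef] at e0 e1
  have z0 : (0 : ℤ) ≤ 0 ∧ (0 : ℤ) ≤ 1 := by norm_num
  have z1 : (0 : ℤ) ≤ 1 ∧ (1 : ℤ) ≤ 1 := by norm_num
  -- the four triangles
  have d1 : dt (sp N w 0) (sp N (w + A) 0) (sp N w 1) = -(N * A.2) := by
    rw [dt_sp]
    simp only [dt, Prod.fst_add, Prod.snd_add]
    ring
  have d2 : dt (sp N w 1) (sp N r γ) (sp N w 0) = N * (r.2 - w.2) := by
    rw [dt_sp]
    simp only [dt]
    ring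
  have d3 : dt (sp N w 1) (sp N (w + A) 0) (sp N w 0) = N * A.2 := by
    rw [dt_sp]
    simp only [dt, Prod.fst_add, Prod.snd_add]
    ring
  have d4 : dt (sp N w 0) (sp N r γ) (sp N w 1) = -(N * (r.2 - w.2)) := by
    rw [dt_sp]
    simp only [dt]
    ring
  have c1 : dt w (w + A) r = A.1 * (r.2 - w.2) - A.2 * (r.1 - w.1) := by
    simp only [dt, Prod.fst_add, Prod.snd_add]
    ring
  have c2 : dt w r (w + A) = -(A.1 * (r.2 - w.2) - A.2 * (r.1 - w.1)) := by
    simp only [dt, Prod.fst_add, Prod.snd_add]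
    ring
  have hN0 : 0 < N := by omega
  have key : A.1 * (r.2 - w.2) - A.2 * (r.1 - w.1) = 0 := by
    by_contra hk
    -- signs
    have hA0 : A.2 ≠ 0 := by
      intro h
      rw [h] at hs2
      simp at hs2
    rcases lt_or_gt_of_ne hk with hneg | hpos
    · -- negative
      have f1 := fun a b (ha : 0 ≤ a ∧ a ≤ 1) (hb : 0 ≤ b ∧ b ≤ 1) =>
        sg_neg P hwb hAb hr (α := a) (β := 0) (γ := b) ha z0 hb (by rw [c1]; exact hneg)
      have f2 := fun a b (ha : 0 ≤ a ∧ a ≤ 1) (hb : 0 ≤ b ∧ b ≤ 1) =>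
        sg_pos P hwb hr hAb (α := a) (β := b) (γ := 0) ha hb z0 (by rw [c2]; omega)
      rcases lt_or_gt_of_ne hA0 with ha | ha
      · have hh : r.2 - w.2 < 0 := by
          rcases lt_or_gt_of_ne hne2 with h | h
          · exact h
          · exact absurd hs2 (not_lt.2 (mul_nonpos_of_nonpos_of_nonneg ha.le h.le))
        refine nocr h3 hT e0 htri.2.1 ⟨?_, ?_⟩
        · rw [d1]
          exact mul_neg_of_pos_of_neg (by nlinarith) (f1 0 γ z0 hγ)
        · rw [d2]
          exact mul_neg_of_neg_of_pos (by nlinarith) (f2 1 γ z1 hγ)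
      · have hh : 0 < r.2 - w.2 := by
          rcases lt_or_gt_of_ne hne2 with h | h
          · exact absurd hs2 (not_lt.2 (mul_nonpos_of_nonneg_of_nonpos ha.le h.le))
          · exact h
        refine nocr h3 hT e1 htri.2.2.1 ⟨?_, ?_⟩
        · rw [d3]
          exact mul_neg_of_pos_of_neg (by nlinarith) (f1 1 γ z1 hγ)
        · rw [d4]
          exact mul_neg_of_neg_of_pos (by nlinarith) (f2 0 γ z0 hγ)
    · have f1 := fun a b (ha : 0 ≤ a ∧ a ≤ 1) (hb : 0 ≤ b ∧ b ≤ 1) =>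
        sg_pos P hwb hAb hr (α := a) (β := 0) (γ := b) ha z0 hb (by rw [c1]; exact hpos)
      have f2 := fun a b (ha : 0 ≤ a ∧ a ≤ 1) (hb : 0 ≤ b ∧ b ≤ 1) =>
        sg_neg P hwb hr hAb (α := a) (β := b) (γ := 0) ha hb z0 (by rw [c2]; omega)
      rcases lt_or_gt_of_ne hA0 with ha | ha
      · have hh : r.2 - w.2 < 0 := by
          rcases lt_or_gt_of_ne hne2 with h | h
          · exact h
          · exact absurd hs2 (not_lt.2 (mul_nonpos_of_nonpos_of_nonneg ha.le h.le))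
        refine nocr h3 hT e1 htri.2.2.1 ⟨?_, ?_⟩
        · rw [d3]
          exact mul_neg_of_neg_of_pos (by nlinarith) (f1 1 γ z1 hγ)
        · rw [d4]
          exact mul_neg_of_pos_of_neg (by nlinarith) (f2 0 γ z0 hγ)
      · have hh : 0 < r.2 - w.2 := by
          rcases lt_or_gt_of_ne hne2 with h | h
          · exact absurd hs2 (not_lt.2 (mul_nonpos_of_nonneg_of_nonpos ha.le h.le))
          · exact h
        refine nocr h3 hT e0 htri.2.1 ⟨?_, ?_⟩
        · rw [d1]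
          exact mul_neg_of_neg_of_pos (by nlinarith) (f1 0 γ z0 hγ)
        · rw [d2]
          exact mul_neg_of_pos_of_neg (by nlinarith) (f2 1 γ z1 hγ)
  obtain ⟨j, -, hj⟩ := mult (A := A) (h := (r.1 - w.1, r.2 - w.2)) (L.sel.prim w hw s) key
  simp only at hj
  have hj0 : j ≠ 0 := by
    intro h
    rw [h, zero_mul] at hj
    exact hne2 hj
  have h1j : 1 ≤ |j| := Int.one_le_abs hj0
  have h2j : 2 ≤ |r.2 - w.2| := by
    rw [hj, abs_mul]
    nlinarith [abs_nonneg j]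
  rw [abs_mul, abs_of_pos hN0]
  nlinarith

/-- a point of the box that is strictly between `p` and `q` on the line -/
theorem prim_dir {p q z : Pt} (hd : dt p q z = 0) (h1 : p.2 < z.2) (h2 : z.2 < q.2) :
    ∃ (g : Pt) (i j : ℤ), Int.gcd g.1 g.2 = 1 ∧ 1 ≤ i ∧ 1 ≤ j ∧ 0 < g.2 ∧
      z.1 = p.1 + i * g.1 ∧ z.2 = p.2 + i * g.2 ∧ q.1 = z.1 + j * g.1 ∧ q.2 = z.2 + j * g.2 := by
  have hd' : (q.1 - p.1) * (z.2 - p.2) - (q.2 - p.2) * (z.1 - p.1) = 0 := hd
  -- g is the primitive vector of q - p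
  have hm0' : 0 < Int.gcd (q.1 - p.1) (q.2 - p.2) :=
    Int.gcd_pos_of_ne_zero_right _ (by omega)
  obtain ⟨m, hm⟩ : ∃ m : ℤ, m = (Int.gcd (q.1 - p.1) (q.2 - p.2) : ℤ) := ⟨_, rfl⟩
  have hm0 : 0 < m := by rw [hm]; exact_mod_cast hm0'
  obtain ⟨a, ha⟩ : m ∣ q.1 - p.1 := by rw [hm]; exact Int.gcd_dvd_left ..
  obtain ⟨b, hb⟩ : m ∣ q.2 - p.2 := by rw [hm]; exact Int.gcd_dvd_right ..
  have hg : Int.gcd a b = 1 := by
    have h3 := Int.gcd_mul_left m a b
    rw [← ha, ← hb] at h3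
    have h5 : m.natAbs = Int.gcd (q.1 - p.1) (q.2 - p.2) := by
      rw [hm, Int.natAbs_natCast]
    rw [h5] at h3
    exact (Nat.eq_of_mul_eq_mul_left hm0' (by rw [mul_one]; exact h3)).symm
  have hb0 : 0 < b := by
    have : 0 < m * b := by rw [← hb]; omega
    exact (mul_pos_iff_of_pos_left hm0).1 this
  rw [ha, hb] at hd'
  have hd2 : a * (z.2 - p.2) - b * (z.1 - p.1) = 0 := by
    have : m * (a * (z.2 - p.2) - b * (z.1 - p.1)) = 0 := by linear_combination hd'
    rcases mul_eq_zero.1 this with h | h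
    · omega
    · exact h
  obtain ⟨i, hi1, hi2⟩ := mult (A := (a, b)) (h := (z.1 - p.1, z.2 - p.2)) hg hd2
  simp only at hi1 hi2
  have hi0 : 0 < i := by
    have : 0 < i * b := by rw [← hi2]; omega
    exact (mul_pos_iff_of_pos_right hb0).1 this
  have him : i < m := by
    have : i * b < m * b := by rw [← hi2, ← hb]; omega
    exact lt_of_mul_lt_mul_right this hb0.le
  refine ⟨(a, b), i, m - i, hg, hi0, by omega, hb0, by simp only; omega, by simp only; omega,
    ?_, ?_⟩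
  · simp only
    linear_combination ha - hi1
  · simp only
    linear_combination hb - hi2

theorem mem_oseg {p q : Pt} {z : ℝ × ℝ} (h : z ∈ oseg p q) :
    ∃ t : ℝ, 0 < t ∧ t < 1 ∧ z.1 = (1 - t) * p.1 + t * q.1 ∧ z.2 = (1 - t) * p.2 + t * q.2 := by
  obtain ⟨a, b, ha, hb, hab, rfl⟩ := h
  have h1 : a = 1 - b := by linarith
  subst h1
  exact ⟨b, hb, by linarith, by simp [emb], by simp [emb]⟩

theorem mem_oseg' {p q r : Pt} {t : ℝ} (h0 : 0 < t) (h1 : t < 1)
    (e1 : (r.1 : ℝ) = (1 - t) * p.1 + t * q.1) (e2 : (r.2 : ℝ) = (1 - t) * p.2 + t * q.2) :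
    emb r ∈ oseg p q := by
  refine ⟨1 - t, t, by linarith, h0, by ring, ?_⟩
  apply Prod.ext
  · simp only [emb, Prod.fst_add, Prod.smul_fst, smul_eq_mul]
    exact e1.symm
  · simp only [emb, Prod.snd_add, Prod.smul_snd, smul_eq_mul]
    exact e2.symm

theorem on_seg {p q z : Pt} (δ : ℤ) (hd : dt p q z = 0) (h1 : p.2 < z.2) (h2 : z.2 < q.2) :
    emb (sp N z δ) ∈ oseg (sp N p δ) (sp N q δ) := by
  have h1' : (p.2 : ℝ) < z.2 := by exact_mod_cast h1
  have h2' : (z.2 : ℝ) < q.2 := by exact_mod_cast h2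
  have h3 : (0 : ℝ) < q.2 - p.2 := by linarith
  have hd' : ((q.1 : ℝ) - p.1) * (z.2 - p.2) - (q.2 - p.2) * (z.1 - p.1) = 0 := by
    have : (q.1 - p.1) * (z.2 - p.2) - (q.2 - p.2) * (z.1 - p.1) = 0 := hd
    exact_mod_cast this
  refine mem_oseg' (t := (z.2 - p.2) / (q.2 - p.2)) (div_pos (by linarith) h3) ?_ ?_ ?_
  · rw [div_lt_one h3]
    linarith
  · simp only [sp]
    push_cast
    field_simp
    linear_combination (-(N : ℝ)) * hd'
  · simp only [sp]
    push_cast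
    field_simp
    ring

theorem prim_oseg {z g r : Pt} (hg : Int.gcd g.1 g.2 = 1) (hg2 : 0 < g.2) :
    emb r ∉ oseg z (z + g) := by
  intro h
  obtain ⟨t, h0, h1, e1, e2⟩ := mem_oseg h
  simp only [emb, Prod.fst_add, Prod.snd_add] at e1 e2
  push_cast at e1 e2
  have hc : g.1 * (r.2 - z.2) - g.2 * (r.1 - z.1) = 0 := by
    have : ((g.1 : ℝ)) * (r.2 - z.2) - g.2 * (r.1 - z.1) = 0 := by
      rw [e1, e2]
      ring
    exact_mod_cast this
  obtain ⟨k, -, hk⟩ := mult (A := g) (h := (r.1 - z.1, r.2 - z.2)) hg hc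
  simp only at hk
  have hg2' : (0 : ℝ) < g.2 := by exact_mod_cast hg2
  have hk' : ((r.2 : ℝ)) - z.2 = k * g.2 := by exact_mod_cast hk
  have hkt : (k : ℝ) = t := by
    have : (k : ℝ) * g.2 = t * g.2 := by rw [← hk', e2]; ring
    exact mul_right_cancel₀ hg2'.ne' this
  rw [← hkt] at h0 h1
  have h0' : (0 : ℤ) < k := by exact_mod_cast h0
  have h1' : k < (1 : ℤ) := by exact_mod_cast h1
  omega

/-- no edge of `T` runs close to a lattice point -/
theorem case3 (h3 : TaskG3) (h4 : TaskG4) (h9 : TaskG9) (P : Par X Y N W) (L : Lft X Y W f Ts)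
    {T : Set (Sym2 Pt)} (hT : IsTriangulation (SS X Y N W) T) (hF : Fam N W f Ts ⊆ T)
    {p q z : Pt} {α β : ℤ} (hp : p ∈ box X Y) (hq : q ∈ box X Y) (hz : z ∈ box X Y)
    (hα : α = 0 ∨ (α = 1 ∧ p ∈ W)) (hβ : β = 0 ∨ (β = 1 ∧ q ∈ W)) (hd : dt p q z = 0)
    (h1 : p.2 < z.2) (h2 : z.2 < q.2) : s(sp N p α, sp N q β) ∉ T := by
  intro hE
  have hN := P.N0
  have hY := P.Y0
  have hN0 : 0 < N := by omega
  have z0 : (0 : ℤ) ≤ 0 ∧ (0 : ℤ) ≤ 1 := by norm_num
  have z1 : (0 : ℤ) ≤ 1 ∧ (1 : ℤ) ≤ 1 := by norm_num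
  have hα' : 0 ≤ α ∧ α ≤ 1 := by rcases hα with h | ⟨h, -⟩ <;> omega
  have hβ' : 0 ≤ β ∧ β ≤ 1 := by rcases hβ with h | ⟨h, -⟩ <;> omega
  have hz0 : sp N z 0 ∈ SS X Y N W := mem_SS.2 (Or.inl ⟨z, hz, rfl⟩)
  -- not both zero
  have hαβ : 1 ≤ α + β := by
    by_contra hcon
    have ha : α = 0 := by omega
    have hb : β = 0 := by omega
    rw [ha, hb] at hE
    exact (hT.seg _ _ hE).2.2.2 _ hz0 (on_seg 0 hd h1 h2)
  have dE : ∀ δ : ℤ, dt (sp N p α) (sp N q β) (sp N z δ) =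
      N * (α * (q.2 - z.2) + β * (z.2 - p.2) - δ * (q.2 - p.2)) := by
    intro δ
    rw [dt_sp, hd]
    ring
  have dE0 : 0 < dt (sp N p α) (sp N q β) (sp N z 0) := by
    rw [dE]
    apply mul_pos hN0
    rcases hα with ha | ⟨ha, -⟩ <;> rcases hβ with hb | ⟨hb, -⟩ <;> rw [ha, hb] <;> omega
  by_cases hzW : z ∈ W
  · by_cases hab : α = 1 ∧ β = 1
    · rw [hab.1, hab.2] at hE
      exact (hT.seg _ _ hE).2.2.2 _ (mem_SS.2 (Or.inr ⟨z, hzW, rfl⟩)) (on_seg 1 hd h1 h2)
    · refine nocr h3 hT hE (pairE hF hzW) ⟨?_, ?_⟩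
      · apply mul_neg_of_pos_of_neg dE0
        rw [dE]
        apply mul_neg_of_pos_of_neg hN0
        rcases hα with ha | ⟨ha, -⟩ <;> rcases hβ with hb | ⟨hb, -⟩ <;> rw [ha, hb] <;>
          omega
      · have e1 : dt (sp N z 0) (sp N z 1) (sp N p α) = N * (p.2 - z.2) := by
          rw [dt_sp]
          simp only [dt]
          ring
        have e2 : dt (sp N z 0) (sp N z 1) (sp N q β) = N * (q.2 - z.2) := by
          rw [dt_sp]
          simp only [dt]
          ring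
        rw [e1, e2]
        exact mul_neg_of_neg_of_pos (mul_neg_of_pos_of_neg hN0 (by omega))
          (mul_pos hN0 (by omega))
  · obtain ⟨g, i, j, hg, hi, hj, hg2, ez1, ez2, eq1, eq2⟩ := prim_dir hd h1 h2
    have hpb := mem_box.1 hp
    have hqb := mem_box.1 hq
    have hzb := mem_box.1 hz
    -- z is in the interior of the box, on the right
    have hzX : z.1 < X := by
      rcases hα with ha | ⟨ha, hpW⟩
      · rcases hβ with hb | ⟨hb, hqW⟩
        · omega
        · have := mem_ibox.1 (P.W0 hqW)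
          have h5 : (i + j) * z.1 = j * p.1 + i * q.1 := by
            rw [eq1, ez1]; ring
          nlinarith
      · have := mem_ibox.1 (P.W0 hpW)
        have h5 : (i + j) * z.1 = j * p.1 + i * q.1 := by
          rw [eq1, ez1]; ring
        nlinarith
    have hzg : z + g ∈ box X Y := by
      rw [mem_box]
      simp only [Prod.fst_add, Prod.snd_add]
      have h5 : j * (z.1 + g.1) = (j - 1) * z.1 + q.1 := by rw [eq1]; ring
      have h6 : j * (z.2 + g.2) = (j - 1) * z.2 + q.2 := by rw [eq2]; ring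
      have hj0 : 0 < j := by omega
      refine ⟨?_, ?_, ?_, ?_⟩
      · by_contra hcon
        nlinarith
      · by_contra hcon
        nlinarith
      · by_contra hcon
        nlinarith
      · by_contra hcon
        nlinarith
    have hne : z ≠ z + g := by
      intro h
      have := congrArg Prod.snd h
      simp only [Prod.snd_add] at this
      omega
    have hij : 0 < i + j := by omega
    -- the segment z, z + g belongs to Ts
    have hzgT : s(z, z + g) ∈ Ts := by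
      apply L.tri.maximal _ _ ⟨hz, hzg, hne, fun r _ => prim_oseg hg hg2⟩
      intro p' q' hpq' hne'
      by_contra hdis
      have hs := L.tri.seg _ _ hpq'
      have hc := h4 z (z + g) p' q' hne hs.2.2.1 hne' (hs.2.2.2 z hz) (hs.2.2.2 _ hzg)
        (prim_oseg hg hg2) (prim_oseg hg hg2) hdis
      have hc2 : PCross p q p' q' := by
        constructor
        · have e : ∀ x, dt p q x = (i + j) * dt z (z + g) x := by
            intro x
            simp only [dt, Prod.fst_add, Prod.snd_add, eq1, eq2, ez1, ez2]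
            ring
          rw [e, e]
          have := hc.1
          have h7 : (i + j) * dt z (z + g) p' * ((i + j) * dt z (z + g) q') =
            (i + j) ^ 2 * (dt z (z + g) p' * dt z (z + g) q') := by ring
          rw [h7]
          exact mul_neg_of_pos_of_neg (pow_pos hij 2) this
        · have hc' := hc.2
          have e1 : dt p' q' p = dt p' q' z - i * (dt p' q' (z + g) - dt p' q' z) := by
            simp only [dt, Prod.fst_add, Prod.snd_add, ez1, ez2]
            ring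
          have e2 : dt p' q' q = dt p' q' (z + g) + (j - 1) * (dt p' q' (z + g) - dt p' q' z) := by
            simp only [dt, Prod.fst_add, Prod.snd_add, eq1, eq2]
            ring
          rw [e1, e2]
          generalize dt p' q' z = D0 at hc' ⊢
          generalize dt p' q' (z + g) = D1 at hc' ⊢
          rcases mul_neg_iff.1 hc' with ⟨ha, hb⟩ | ⟨ha, hb⟩
          · have k1 : i * (D1 - D0) < 0 := mul_neg_of_pos_of_neg (by omega) (by omega)
            have k2 : (j - 1) * (D1 - D0) ≤ 0 :=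
              mul_nonpos_of_nonneg_of_nonpos (by omega) (by omega)
            exact mul_neg_of_pos_of_neg (by omega) (by omega)
          · have k1 : 0 < i * (D1 - D0) := mul_pos (by omega) (by omega)
            have k2 : 0 ≤ (j - 1) * (D1 - D0) := mul_nonneg (by omega) (by omega)
            exact mul_neg_of_neg_of_pos (by omega) (by omega)
      exact nocr h3 hT hE (lift hF hpq')
        (pcross_sp P.N0 P.Y0 hp hq hs.1 hs.2.1 hα' hβ' (dl01 ..) (dl01 ..) hc2)
    -- the triangle on the right of it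
    obtain ⟨t, ht0, htri, -⟩ := h9 _ Ts L.tri (z + g) z (by rwa [Sym2.eq_swap]) (by
      refine ⟨(X, z.2), ?_, ?_⟩
      · rw [mem_box]
        exact ⟨P.X0.le, le_rfl, hzb.2.2.1, hzb.2.2.2⟩
      · have : dt (z + g) z (X, z.2) = g.2 * (X - z.1) := by
          simp only [dt, Prod.fst_add, Prod.snd_add]
          ring
        rw [this]
        exact mul_pos hg2 (by omega))
    have hzt : s(z, t) ∈ Ts := htri.2.1
    have htb : t ∈ box X Y := (L.tri.seg _ _ hzt).2.1
    have hl := lift hF hzt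
    rw [dl_out hzW] at hl
    have e1 : dt p q t = -((i + j) * dt (z + g) z t) := by
      simp only [dt, Prod.fst_add, Prod.snd_add, eq1, eq2, ez1, ez2]
      ring
    have e2 : dt z t p = -(i * dt (z + g) z t) := by
      simp only [dt, Prod.fst_add, Prod.snd_add, ez1, ez2]
      ring
    have e3 : dt z t q = j * dt (z + g) z t := by
      simp only [dt, Prod.fst_add, Prod.snd_add, eq1, eq2]
      ring
    refine nocr h3 hT hE hl ⟨?_, ?_⟩
    · apply mul_neg_of_pos_of_neg dE0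
      apply sg_neg P hp hq htb hα' hβ' (dl01 ..)
      rw [e1]
      exact neg_neg_of_pos (mul_pos hij ht0)
    · apply mul_neg_of_neg_of_pos
      · apply sg_neg P hz htb hp z0 (dl01 ..) hα'
        rw [e2]
        exact neg_neg_of_pos (mul_pos (by omega) ht0)
      · apply sg_pos P hz htb hq z0 (dl01 ..) hβ'
        rw [e3]
        exact mul_pos (by omega) ht0

/-- case 2, symmetric form -/
theorem case2' (h3 : TaskG3) (P : Par X Y N W) (L : Lft X Y W f Ts) {T : Set (Sym2 Pt)}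
    (hT : IsTriangulation (SS X Y N W) T) (hF : Fam N W f Ts ⊆ T) {w r : Pt} {α β γ : ℤ}
    (hα : α = 0 ∨ (α = 1 ∧ w ∈ W)) (hβ : β = 0 ∨ (β = 1 ∧ w ∈ W)) (hr : r ∈ box X Y)
    (hγ : 0 ≤ γ ∧ γ ≤ 1) (htri : IsTri (SS X Y N W) T (sp N w α) (sp N w β) (sp N r γ)) :
    2 * N ≤ |dt (sp N w α) (sp N w β) (sp N r γ)| := by
  have hne := (hT.seg _ _ htri.1).2.2.1
  rcases hα with ha | ⟨ha, hw⟩ <;> rcases hβ with hb | ⟨hb, hw'⟩
  · rw [ha, hb] at hne
    exact absurd rfl hne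
  · rw [ha, hb] at htri ⊢
    exact case2 h3 P L hT hF hw' hr hγ htri
  · rw [ha, hb] at htri ⊢
    rw [dt_swap, abs_neg]
    exact case2 h3 P L hT hF hw hr hγ (tri_swap htri)
  · rw [ha, hb] at hne
    exact absurd rfl hne

theorem dt_zero_height {p q r : Pt} (hne : p ≠ q) (hd : dt p q r = 0) (h : p.2 = q.2) :
    r.2 = p.2 := by
  simp only [dt] at hd
  rw [h, sub_self, zero_mul, sub_zero] at hd
  rcases mul_eq_zero.1 hd with h1 | h1
  · exact absurd (Prod.ext (by omega) h) hne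
  · omega

theorem p2c (h3 : TaskG3) (h4 : TaskG4) (h9 : TaskG9) : TaskP2c := by
  intro X Y N W f Ts P L T hT hF a b c htri
  obtain ⟨p, hp, α, hα, rfl⟩ := mem_SS' P.W0 (hT.seg _ _ htri.1).1
  obtain ⟨q, hq, β, hβ, rfl⟩ := mem_SS' P.W0 (hT.seg _ _ htri.1).2.1
  obtain ⟨r, hr, γ, hγ, rfl⟩ := mem_SS' P.W0 (hT.seg _ _ htri.2.1).2.1
  have hα' : 0 ≤ α ∧ α ≤ 1 := by rcases hα with h | ⟨h, -⟩ <;> omega
  have hβ' : 0 ≤ β ∧ β ≤ 1 := by rcases hβ with h | ⟨h, -⟩ <;> omega
  have hγ' : 0 ≤ γ ∧ γ ≤ 1 := by rcases hγ with h | ⟨h, -⟩ <;> omega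
  by_cases hpq : p = q
  · subst hpq
    exact case2' h3 P L hT hF hα hβ hr hγ' htri
  by_cases hpr : p = r
  · subst hpr
    have h5 := case2' h3 P L hT hF hα hγ hq hβ' (tri_swap' htri)
    rwa [dt_swap', abs_neg] at h5
  by_cases hqr : q = r
  · subst hqr
    have h5 := case2' h3 P L hT hF hβ hγ hp hα' (tri_swap' (tri_swap htri))
    rwa [dt_swap', dt_swap, neg_neg] at h5
  rcases lt_trichotomy (dt p q r) 0 with hlt | heq | hgt
  · have h5 := dt_sp_neg P.N0 P.Y0 hp hq hr hα'.1 hα'.2 hβ'.1 hβ'.2 hγ'.1 hγ'.2 hlt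
    rw [abs_of_neg (by have := P.N0; have := P.Y0; omega)]
    omega
  · exfalso
    have hfine := htri.2.2.2.1
    have hheights : ¬ (p.2 = q.2 ∧ q.2 = r.2) := by
      rintro ⟨h5, h6⟩
      apply hfine
      rw [dt_sp, heq, h5, h6]
      ring
    have d2 : dt q r p = 0 := by
      have : dt q r p = dt p q r := by simp only [dt]; ring
      rw [this, heq]
    have d3 : dt p r q = 0 := by rw [dt_swap', heq, neg_zero]
    have n1 : p.2 ≠ q.2 := fun h => hheights ⟨h, by rw [dt_zero_height hpq heq h, h]⟩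
    have n2 : q.2 ≠ r.2 := fun h => hheights ⟨dt_zero_height hqr d2 h, h⟩
    have n3 : p.2 ≠ r.2 := fun h => by
      have h6 := dt_zero_height hpr d3 h
      exact hheights ⟨h6.symm, by rw [h6, h]⟩
    have e1 := htri.1
    have e2 := htri.2.1
    have e3 := htri.2.2.1
    have e1' : s(sp N q β, sp N p α) ∈ T := by rwa [Sym2.eq_swap]
    have e2' : s(sp N r γ, sp N q β) ∈ T := by rwa [Sym2.eq_swap]
    have e3' : s(sp N r γ, sp N p α) ∈ T := by rwa [Sym2.eq_swap]
    have d4 : dt q p r = 0 := by rw [dt_swap, heq, neg_zero]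
    have d5 : dt r q p = 0 := by rw [dt_swap, d2, neg_zero]
    have d6 : dt r p q = 0 := by rw [dt_swap, d3, neg_zero]
    rcases lt_or_gt_of_ne n1 with a1 | a1 <;> rcases lt_or_gt_of_ne n2 with a2 | a2 <;>
      rcases lt_or_gt_of_ne n3 with a3 | a3
    · exact case3 h3 h4 h9 P L hT hF hp hr hq hα hγ d3 a1 a2 e3
    · omega
    · exact case3 h3 h4 h9 P L hT hF hp hq hr hα hβ heq a3 a2 e1
    · exact case3 h3 h4 h9 P L hT hF hr hq hp hγ hβ d5 a3 a1 e2'
    · exact case3 h3 h4 h9 P L hT hF hq hr hp hβ hγ d2 a1 a3 e2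
    · exact case3 h3 h4 h9 P L hT hF hq hp hr hβ hα d4 a2 a3 e1'
    · omega
    · exact case3 h3 h4 h9 P L hT hF hr hp hq hγ hα d6 a2 a1 e3'
  · have h5 := dt_sp_pos P.N0 P.Y0 hp hq hr hα'.1 hα'.2 hβ'.1 hβ'.2 hγ'.1 hγ'.2 hgt
    rw [abs_of_pos (by have := P.N0; have := P.Y0; omega)]
    omega

end Pool.Agent.H399.Q2P2c
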